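import Pool.Agent.MP_37cedb_gt.Mg.Final

/-!
A countably compact minimal group with property Z_m has property Z.
(The proof shows that such a group is compact, metrizable and has no small subgroups.)
-/

namespace Pool.Agent.Results.MP_37cedb_gt.CompactLie

open Pool.Agent.MP_37cedb_gt

universe u

theorem result (G : Type u) [Group G] [TopologicalSpace G] [IsTopologicalGroup G] [T2Space G]
    [CountablyCompactSpace G] (hm : IsMinimalGroup G) (hz : PropZm G) : PropZ G :=
  (main hm hz).1

end Pool.Agent.Results.MP_37cedb_gt.CompactLie
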